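import Mathlib

/-!
An irreducible branching random walk for which both the set of extinction probability vectors and
the set of the other fixed points of the generating function are uncountable.
-/

open MeasureTheory Finset
open scoped ENNReal NNReal

namespace Pool.Agent.Results.MP_46e535_pr.BothInfinite

section definitions

variable {X : Type}

/-- Every subset of the set `S_X` of finitely supported functions is measurable. -/
instance instMeasurableSpaceConfig : MeasurableSpace (X →₀ ℕ) := ⊤

/-- The joint law of the offspring configurations: the configuration with index `(n, x, j)` is the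
offspring of the `j`-th particle at `x` at time `n`; they are independent with laws `μ x`. -/
noncomputable def offspringLaw (μ : X → PMF (X →₀ ℕ)) : Measure (ℕ × X × ℕ → (X →₀ ℕ)) :=
  Measure.infinitePi (fun p : ℕ × X × ℕ => (μ p.2.1).toMeasure)

/-- The population at time `n` when one particle starts at `x₀`. -/
noncomputable def population (ξ : ℕ × X × ℕ → (X →₀ ℕ)) (x₀ : X) : ℕ → (X →₀ ℕ)
  | 0 => Finsupp.single x₀ 1
  | n + 1 => (population ξ x₀ n).sum (fun x m => ∑ j ∈ range m, ξ (n, x, j))

/-- The extinction probability `q(x, A)`: the probability that eventually no particle is in `A`. -/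
noncomputable def extProb (μ : X → PMF (X →₀ ℕ)) (A : Set X) (x : X) : ℝ :=
  (offspringLaw μ).real {ξ | ∃ N : ℕ, ∀ n, N ≤ n → ∀ y ∈ A, population ξ x n y = 0}

/-- The generating function `G(z | x) = ∑_f μ_x(f) ∏_y z(y)^{f(y)}`. -/
noncomputable def genFun (μ : X → PMF (X →₀ ℕ)) (z : X → ℝ) (x : X) : ℝ :=
  ∑' f : X →₀ ℕ, (μ x f).toReal * f.prod (fun y n => z y ^ n)

/-- The fixed points of `G` in `[0,1]^X`. -/
def fixedPoints (μ : X → PMF (X →₀ ℕ)) : Set (X → ℝ) :=
  {z | (∀ x, 0 ≤ z x ∧ z x ≤ 1) ∧ ∀ x, genFun μ z x = z x}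

/-- The extinction probability vectors. -/
def extVectors (μ : X → PMF (X →₀ ℕ)) : Set (X → ℝ) :=
  {z | ∃ A : Set X, z = extProb μ A}

/-- The mean number of children at `y` of a particle at `x`. -/
noncomputable def meanOffspring (μ : X → PMF (X →₀ ℕ)) (x y : X) : ℝ≥0∞ :=
  ∑' f : X →₀ ℕ, (f y : ℝ≥0∞) * μ x f

/-- The branching random walk is irreducible. -/
def IrreducibleBRW (μ : X → PMF (X →₀ ℕ)) : Prop :=
  ∀ x y, Relation.ReflTransGen (fun a b => 0 < meanOffspring μ a b) x y

end definitions

section example_brw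

/-- The Poisson distribution. -/
noncomputable def pois (r : ℝ≥0) : PMF ℕ :=
  ⟨fun n => ENNReal.ofReal (Real.exp (-r) * r ^ n / (n.factorial : ℝ)), by
    have h := ProbabilityTheory.hasSum_one_poissonMeasure r
    have h2 := h.summable.hasSum
    rw [h.tsum_eq] at h2
    have h3 : HasSum (fun n : ℕ => ENNReal.ofReal (Real.exp (-r) * r ^ n / (n.factorial : ℝ)))
        (ENNReal.ofReal 1) := by
      rw [← h.tsum_eq, ENNReal.ofReal_tsum_of_nonneg (fun n => by positivity) h.summable]
      exact ENNReal.summable.hasSum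
    rwa [ENNReal.ofReal_one] at h3⟩

lemma pois_apply (r : ℝ≥0) (n : ℕ) :
    pois r n = ENNReal.ofReal (Real.exp (-r) * r ^ n / (n.factorial : ℝ)) := rfl

lemma pois_toReal (r : ℝ≥0) (n : ℕ) :
    (pois r n).toReal = Real.exp (-r) * r ^ n / (n.factorial : ℝ) := by
  rw [pois_apply, ENNReal.toReal_ofReal (by positivity)]

lemma tsum_pois (r : ℝ≥0) (s : ℝ) :
    ∑' n, (pois r n).toReal * s ^ n = Real.exp (-(r * (1 - s))) := by
  simp only [pois_toReal]
  have h1 : ∀ n : ℕ, Real.exp (-r) * (r : ℝ) ^ n / (n.factorial : ℝ) * s ^ n =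
      Real.exp (-r) * ((r * s) ^ n / (n.factorial : ℝ)) := by
    intro n; rw [mul_pow]; ring
  simp only [h1]
  have h2 := (NormedSpace.expSeries_div_hasSum_exp ((r : ℝ) * s)).tsum_eq
  rw [tsum_mul_left, h2, ← Real.exp_eq_exp_ℝ]
  rw [← Real.exp_add]
  congr 1
  ring

/-- Vertices: the origin `none` and the vertices `(i,k)` of countably many rays. -/
abbrev Vx : Type := Option (ℕ × ℕ)

/-- Rate of the number of children sent back to the origin from level `k`. -/
noncomputable def eps (k : ℕ) : ℝ≥0 := (1 / 4) ^ (k + 1)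

/-- The branching random walk: a particle at `(i,k)` has two children at `(i,k+1)` and a Poisson
number of children at the origin, a particle at the origin has one child at a random `(i,0)`. -/
noncomputable def mu : Vx → PMF (Vx →₀ ℕ)
  | none => (pois 1).map (fun i => Finsupp.single (some (i, 0)) 1)
  | some (i, k) => (pois (eps k)).map
      (fun m => Finsupp.single (some (i, k + 1)) 2 + Finsupp.single none m)

lemma tsum_map {α β : Type} (p : PMF α) (g : α → β) (hg : Function.Injective g) (F : β → ℝ) :
    ∑' f, ((p.map g) f).toReal * F f = ∑' a, (p a).toReal * F (g a) := by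
  classical
  have h1 : ∀ a, (p.map g) (g a) = p a := by
    intro a
    rw [PMF.map_apply, tsum_eq_single a]
    · simp
    · intro b hb
      rw [if_neg]
      exact fun h => hb (hg h).symm
  have h2 : ∀ f, f ∉ Set.range g → (p.map g) f = 0 := by
    intro f hf
    rw [PMF.map_apply, ENNReal.tsum_eq_zero]
    intro a
    rw [if_neg]
    rintro rfl
    exact hf ⟨a, rfl⟩
  rw [← hg.tsum_eq (f := fun f => ((p.map g) f).toReal * F f)]
  · simp only [h1]
  · intro f hf
    by_contra hcon
    apply hf
    show ((p.map g) f).toReal * F f = 0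
    rw [h2 f hcon]
    simp

lemma inj_zero : Function.Injective
    (fun i : ℕ => (Finsupp.single (some (i, 0)) 1 : Vx →₀ ℕ)) := by
  intro i j h
  simp only at h
  rw [Finsupp.single_left_inj (by norm_num)] at h
  simpa using h

lemma inj_ray (i k : ℕ) : Function.Injective
    (fun m : ℕ => (Finsupp.single (some (i, k + 1)) 2 + Finsupp.single none m : Vx →₀ ℕ)) := by
  intro m m' h
  have := DFunLike.congr_fun h none
  simpa using this

lemma genFun_none (z : Vx → ℝ) :
    genFun mu z none = ∑' i, (pois 1 i).toReal * z (some (i, 0)) := by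
  unfold genFun mu
  rw [tsum_map _ _ inj_zero]
  congr 1
  ext i
  rw [Finsupp.prod_single_index (by simp), pow_one]

lemma genFun_some (z : Vx → ℝ) (i k : ℕ) :
    genFun mu z (some (i, k)) =
      z (some (i, k + 1)) ^ 2 * Real.exp (-(eps k * (1 - z none))) := by
  unfold genFun mu
  rw [tsum_map _ _ (inj_ray i k), ← tsum_pois, ← tsum_mul_left]
  congr 1
  ext m
  rw [Finsupp.prod_add_index' (by simp) (by intro a b c; rw [pow_add]),
    Finsupp.prod_single_index (by simp), Finsupp.prod_single_index (by simp)]
  ring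

lemma meanOffspring_pos {x y : Vx} {f : Vx →₀ ℕ} (hf : mu x f ≠ 0) (hy : f y ≠ 0) :
    0 < meanOffspring mu x y := by
  unfold meanOffspring
  rw [pos_iff_ne_zero]
  intro h
  rw [ENNReal.tsum_eq_zero] at h
  have := h f
  rw [mul_eq_zero] at this
  rcases this with h1 | h1
  · exact hy (by exact_mod_cast h1)
  · exact hf h1

lemma pois_ne_zero {r : ℝ≥0} (hr : 0 < r) (n : ℕ) : pois r n ≠ 0 := by
  rw [pois_apply]
  have : 0 < Real.exp (-r) * (r : ℝ) ^ n / (n.factorial : ℝ) := by positivity
  exact (ENNReal.ofReal_pos.mpr this).ne'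

lemma map_ne_zero {α β : Type} (p : PMF α) (g : α → β) (a : α) (h : p a ≠ 0) :
    (p.map g) (g a) ≠ 0 := by
  rw [← PMF.mem_support_iff, PMF.mem_support_map_iff]
  exact ⟨a, (PMF.mem_support_iff _ _).mpr h, rfl⟩

lemma eps_pos (k : ℕ) : 0 < eps k := by unfold eps; positivity

lemma step_none (i : ℕ) : 0 < meanOffspring mu none (some (i, 0)) := by
  apply meanOffspring_pos (f := Finsupp.single (some (i, 0)) 1)
  · exact map_ne_zero (pois 1) (fun i => Finsupp.single (some (i, 0)) 1) i
      (pois_ne_zero one_pos i)
  · simp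

lemma step_back (i k : ℕ) : 0 < meanOffspring mu (some (i, k)) none := by
  apply meanOffspring_pos (f := Finsupp.single (some (i, k + 1)) 2 + Finsupp.single none 1)
  · exact map_ne_zero (pois (eps k))
      (fun m => Finsupp.single (some (i, k + 1)) 2 + Finsupp.single none m) 1
      (pois_ne_zero (eps_pos k) 1)
  · simp

lemma step_forward (i k : ℕ) : 0 < meanOffspring mu (some (i, k)) (some (i, k + 1)) := by
  apply meanOffspring_pos (f := Finsupp.single (some (i, k + 1)) 2 + Finsupp.single none 1)
  · exact map_ne_zero (pois (eps k))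
      (fun m => Finsupp.single (some (i, k + 1)) 2 + Finsupp.single none m) 1
      (pois_ne_zero (eps_pos k) 1)
  · simp

lemma irreducible : IrreducibleBRW mu := by
  have h1 : ∀ x : Vx, Relation.ReflTransGen (fun a b => 0 < meanOffspring mu a b) x none := by
    intro x
    rcases x with _ | ⟨i, k⟩
    · exact Relation.ReflTransGen.refl
    · exact Relation.ReflTransGen.single (step_back i k)
  have h2 : ∀ y : Vx, Relation.ReflTransGen (fun a b => 0 < meanOffspring mu a b) none y := by
    intro y
    rcases y with _ | ⟨i, k⟩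
    · exact Relation.ReflTransGen.refl
    · induction k with
      | zero => exact Relation.ReflTransGen.single (step_none i)
      | succ k ih => exact ih.tail (step_forward i k)
  exact fun x y => (h1 x).trans (h2 y)

end example_brw

section fixed_points

/-- The one-parameter family of fixed points; `s` is the value at the origin. -/
noncomputable def zfam (s t : ℝ) : Vx → ℝ
  | none => s
  | some (i, k) => Real.exp (-((1 - s) * (1 / 4) ^ k / 2 + (if i = 0 then t * (1 / 2) ^ k else 0)))

lemma zfam_ray (s t : ℝ) (i k : ℕ) : genFun mu (zfam s t) (some (i, k)) = zfam s t (some (i, k)) := by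
  rw [genFun_some]
  simp only [zfam]
  rw [← Real.exp_nat_mul, ← Real.exp_add]
  congr 1
  have : ((eps k : ℝ≥0) : ℝ) = (1 / 4) ^ (k + 1) := by
    unfold eps; push_cast; norm_num
  rw [this]
  push_cast
  split_ifs <;> ring

/-- The value of the generating function at the origin. -/
lemma zfam_origin (s t : ℝ) : genFun mu (zfam s t) none = Real.exp (-((1 - s) / 2)) *
    ((pois 1 0).toReal * Real.exp (-t) + (1 - (pois 1 0).toReal)) := by
  have hsum : Summable (fun i => (pois 1 i).toReal) :=
    ENNReal.summable_toReal (by rw [(pois 1).tsum_coe]; exact ENNReal.one_ne_top)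
  have htot : ∑' i, (pois 1 i).toReal = 1 := by
    rw [← ENNReal.tsum_toReal_eq (fun i => PMF.apply_ne_top _ _), (pois 1).tsum_coe]
    simp
  rw [genFun_none]
  have h1 : ∀ i, (pois 1 i).toReal * zfam s t (some (i, 0)) =
      Real.exp (-((1 - s) / 2)) * ((pois 1 i).toReal +
        (if i = 0 then (pois 1 0).toReal * (Real.exp (-t) - 1) else 0)) := by
    intro i
    simp only [zfam]
    by_cases hi : i = 0
    · subst hi
      simp only [if_true, pow_zero, mul_one]
      rw [show -((1 - s) / 2 + t) = -((1 - s) / 2) + -t by ring, Real.exp_add]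
      ring
    · simp only [if_neg hi, pow_zero, mul_one, add_zero]
      ring
  simp only [h1]
  have hs2 : Summable (fun i : ℕ => if i = 0 then (pois 1 0).toReal * (Real.exp (-t) - 1) else 0) :=
    summable_of_ne_finset_zero (s := {0}) (by intro b hb; rw [if_neg (by simpa using hb)])
  rw [tsum_mul_left, hsum.tsum_add hs2, htot, tsum_ite_eq]
  ring

lemma exists_origin (t : ℝ) (ht : 0 < t) : ∃ s : ℝ, 0 ≤ s ∧ s ≤ 1 ∧ genFun mu (zfam s t) none = s := by
  simp only [zfam_origin]
  set c : ℝ := (pois 1 0).toReal * Real.exp (-t) + (1 - (pois 1 0).toReal) with hc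
  have hp0 : 0 ≤ (pois 1 0).toReal := ENNReal.toReal_nonneg
  have hp1 : (pois 1 0).toReal ≤ 1 := by
    rw [pois_toReal]
    simp
  have he1 : Real.exp (-t) ≤ 1 := Real.exp_le_one_iff.mpr (by linarith)
  have he0 := Real.exp_pos (-t)
  have hc1 : c ≤ 1 := by rw [hc]; nlinarith
  have hc0 : 0 ≤ c := by
    rw [hc]
    have := mul_nonneg hp0 he0.le
    linarith
  have hcont : ContinuousOn (fun s : ℝ => Real.exp (-((1 - s) / 2)) * c - s) (Set.Icc 0 1) := by
    fun_prop
  have h0 : 0 ≤ Real.exp (-((1 - 0) / 2)) * c - 0 := by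
    have := Real.exp_pos (-((1 - 0) / 2 : ℝ))
    have := mul_nonneg this.le hc0
    linarith
  have h1 : Real.exp (-((1 - 1) / 2)) * c - 1 ≤ 0 := by
    simp
    exact hc1
  obtain ⟨s, hs, hs2⟩ := intermediate_value_Icc' zero_le_one hcont ⟨h1, h0⟩
  simp only at hs2
  exact ⟨s, hs.1, hs.2, by linarith⟩

lemma zfam_mem {s t : ℝ} (ht : 0 < t) (hs0 : 0 ≤ s) (hs1 : s ≤ 1)
    (hs : genFun mu (zfam s t) none = s) : zfam s t ∈ fixedPoints mu := by
  refine ⟨fun x => ?_, fun x => ?_⟩
  · rcases x with _ | ⟨i, k⟩
    · exact ⟨hs0, hs1⟩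
    · simp only [zfam]
      refine ⟨(Real.exp_pos _).le, Real.exp_le_one_iff.mpr ?_⟩
      have h1 : 0 ≤ (1 - s) * (1 / 4) ^ k / 2 := by
        have : 0 ≤ 1 - s := by linarith
        positivity
      split_ifs
      · have : 0 ≤ t * (1 / 2) ^ k := by positivity
        linarith
      · linarith
  · rcases x with _ | ⟨i, k⟩
    · exact hs
    · exact zfam_ray s t i k

end fixed_points

section extinction

lemma measurableSet_config (S : Set (Vx →₀ ℕ)) : MeasurableSet S := trivial

instance : Countable (Vx →₀ ℕ) := inferInstance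

lemma offspring_eval (p : ℕ × Vx × ℕ) (S : Set (Vx →₀ ℕ)) :
    offspringLaw mu {ξ | ξ p ∈ S} = (mu p.2.1).toMeasure S := by
  have h := (measurePreserving_eval_infinitePi (fun p : ℕ × Vx × ℕ => (mu p.2.1).toMeasure) p)
  have := h.measure_preimage (measurableSet_config S).nullMeasurableSet
  exact this

instance : IsProbabilityMeasure (offspringLaw mu) := by
  unfold offspringLaw
  infer_instance

/-- On a ray the population at level `k + n` at time `n` never vanishes. -/
lemma ray_population (i k : ℕ) : ∀ᵐ ξ ∂(offspringLaw mu), ∀ n,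
    1 ≤ population ξ (some (i, k)) n (some (i, k + n)) := by
  have h1 : ∀ᵐ ξ ∂(offspringLaw mu), ∀ p : ℕ × ℕ × ℕ,
      2 ≤ ξ (p.1, some (i, p.2.1), p.2.2) (some (i, p.2.1 + 1)) := by
    rw [ae_all_iff]
    rintro ⟨n, k', j⟩
    rw [ae_iff]
    have h2 := offspring_eval (n, some (i, k'), j) {f | ¬ 2 ≤ f (some (i, k' + 1))}
    have h3 : (mu (some (i, k'))).toMeasure {f : Vx →₀ ℕ | ¬ 2 ≤ f (some (i, k' + 1))} = 0 := by
      rw [PMF.toMeasure_apply_eq_zero_iff _ (measurableSet_config _), Set.disjoint_left]
      intro f hf hf2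
      have : f ∈ ((pois (eps k')).map (fun m =>
        (Finsupp.single (some (i, k' + 1)) 2 + Finsupp.single none m : Vx →₀ ℕ))).support := hf
      rw [PMF.mem_support_map_iff] at this
      obtain ⟨m, _, rfl⟩ := this
      simp at hf2
    rw [← h3, ← h2]
    rfl
  filter_upwards [h1] with ξ hξ n
  induction n with
  | zero => simp [population]
  | succ n ih =>
    simp only [population]
    rw [Finsupp.sum, Finsupp.finsetSum_apply]
    have hmem : some (i, k + n) ∈ (population ξ (some (i, k)) n).support := by
      rw [Finsupp.mem_support_iff]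
      omega
    calc 1 ≤ (∑ j ∈ range (population ξ (some (i, k)) n (some (i, k + n))),
          ξ (n, some (i, k + n), j)) (some (i, k + (n + 1))) := by
          rw [Finsupp.finsetSum_apply]
          have h2 : 0 ∈ range (population ξ (some (i, k)) n (some (i, k + n))) :=
            mem_range.mpr (by omega)
          have h3 := hξ (n, k + n, 0)
          simp only at h3
          calc 1 ≤ ξ (n, some (i, k + n), 0) (some (i, k + (n + 1))) := by
                rw [show k + (n + 1) = k + n + 1 by ring]; omega
            _ ≤ _ := Finset.single_le_sum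
                (f := fun j => ξ (n, some (i, k + n), j) (some (i, k + (n + 1))))
                (fun _ _ => Nat.zero_le _) h2
      _ ≤ _ := Finset.single_le_sum (f := fun x => (∑ j ∈ range (population ξ (some (i, k)) n x),
            ξ (n, x, j)) (some (i, k + (n + 1)))) (fun _ _ => Nat.zero_le _) hmem

/-- If `A` contains infinitely many vertices of the ray `i`, then `q((i,k), A) = 0`. -/
lemma extProb_eq_zero (A : Set Vx) (i k : ℕ) (hA : ∀ N, ∃ n, N ≤ n ∧ some (i, n) ∈ A) :
    extProb mu A (some (i, k)) = 0 := by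
  unfold extProb
  rw [measureReal_eq_zero_iff]
  have h := ray_population i k
  rw [ae_iff] at h
  refine measure_mono_null ?_ h
  rintro ξ ⟨N, hN⟩ hcon
  obtain ⟨n, hn, hA⟩ := hA (N + k)
  have h1 := hN (n - k) (by omega) _ hA
  have h2 := hcon (n - k)
  rw [show k + (n - k) = n by omega] at h2
  omega

lemma eps_bound (i k n j : ℕ) : offspringLaw mu {ξ | ξ (n, some (i, k), j) ≠
    Finsupp.single (some (i, k + 1)) 2} ≤ ENNReal.ofReal ((1 / 4) ^ (k + 1)) := by
  have h2 := offspring_eval (n, some (i, k), j) {f | f ≠ Finsupp.single (some (i, k + 1)) 2}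
  rw [show {ξ : ℕ × Vx × ℕ → (Vx →₀ ℕ) | ξ (n, some (i, k), j) ≠
    Finsupp.single (some (i, k + 1)) 2} = {ξ | ξ (n, some (i, k), j) ∈
      {f : Vx →₀ ℕ | f ≠ Finsupp.single (some (i, k + 1)) 2}} from rfl, h2]
  have h3 : (mu (some (i, k))).toMeasure {f : Vx →₀ ℕ | f ≠ Finsupp.single (some (i, k + 1)) 2} =
      1 - (mu (some (i, k))).toMeasure {Finsupp.single (some (i, k + 1)) 2} := by
    rw [← prob_compl_eq_one_sub (measurableSet_config _)]
    rfl
  rw [h3, PMF.toMeasure_apply_singleton _ _ (measurableSet_config _)]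
  have h4 : mu (some (i, k)) (Finsupp.single (some (i, k + 1)) 2) = pois (eps k) 0 := by
    have h5 : mu (some (i, k)) (Finsupp.single (some (i, k + 1)) 2) =
        ((pois (eps k)).map (fun m => (Finsupp.single (some (i, k + 1)) 2 +
          Finsupp.single none m : Vx →₀ ℕ))) ((fun m => (Finsupp.single (some (i, k + 1)) 2 +
          Finsupp.single none m : Vx →₀ ℕ)) 0) := by
      simp only [Finsupp.single_zero, add_zero]
      rfl
    rw [h5, PMF.map_apply, tsum_eq_single 0]
    · simp
    · intro b hb
      rw [if_neg]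
      exact fun h => hb (inj_ray i k h).symm
  rw [h4, pois_apply]
  have h6 : ((eps k : ℝ≥0) : ℝ) = (1 / 4) ^ (k + 1) := by
    unfold eps; push_cast; norm_num
  rw [h6, ← ENNReal.ofReal_one, ← ENNReal.ofReal_sub _ (by positivity)]
  apply ENNReal.ofReal_le_ofReal
  have := Real.add_one_le_exp (-((1 / 4 : ℝ) ^ (k + 1)))
  simp only [pow_zero, mul_one, Nat.factorial_zero, Nat.cast_one, div_one]
  linarith

/-- If `A` contains no vertex `(i,n)` with `n ≥ k` then `q((i,k), A) ≥ 1 - 4^{-k}/2`. -/
lemma le_extProb (A : Set Vx) (i k : ℕ) (hA : ∀ n, k ≤ n → some (i, n) ∉ A) :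
    1 - (1 / 4) ^ k / 2 ≤ extProb mu A (some (i, k)) := by
  set B : Set (ℕ × Vx × ℕ → (Vx →₀ ℕ)) := ⋃ n : ℕ, ⋃ j ∈ range (2 ^ n),
    {ξ | ξ (n, some (i, k + n), j) ≠ Finsupp.single (some (i, k + n + 1)) 2} with hB
  have hBm : MeasurableSet B := by
    refine MeasurableSet.iUnion fun n => ?_
    refine MeasurableSet.biUnion (Finset.countable_toSet _) fun j _ => ?_
    have : Measurable (fun ξ : ℕ × Vx × ℕ → (Vx →₀ ℕ) => ξ (n, some (i, k + n), j)) :=
      measurable_pi_apply _
    exact this (measurableSet_config {f | f ≠ Finsupp.single (some (i, k + n + 1)) 2})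
  have hBle : offspringLaw mu B ≤ ENNReal.ofReal ((1 / 4) ^ k / 2) := by
    calc offspringLaw mu B ≤ ∑' n : ℕ, offspringLaw mu (⋃ j ∈ range (2 ^ n),
          {ξ | ξ (n, some (i, k + n), j) ≠ Finsupp.single (some (i, k + n + 1)) 2}) :=
          measure_iUnion_le _
      _ ≤ ∑' n : ℕ, ENNReal.ofReal ((1 / 4) ^ (k + 1) * (1 / 2) ^ n) := by
          apply ENNReal.tsum_le_tsum
          intro n
          calc _ ≤ ∑ j ∈ range (2 ^ n), offspringLaw mu
                {ξ | ξ (n, some (i, k + n), j) ≠ Finsupp.single (some (i, k + n + 1)) 2} :=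
                measure_biUnion_finset_le _ _
            _ ≤ ∑ j ∈ range (2 ^ n), ENNReal.ofReal ((1 / 4) ^ (k + n + 1)) :=
                Finset.sum_le_sum fun j _ => eps_bound i (k + n) n j
            _ = ENNReal.ofReal ((1 / 4) ^ (k + 1) * (1 / 2) ^ n) := by
                rw [sum_const, card_range, nsmul_eq_mul]
                rw [show (((2 ^ n : ℕ)) : ℝ≥0∞) = ENNReal.ofReal (2 ^ n) by
                  rw [ENNReal.ofReal_pow (by norm_num)]; norm_num]
                rw [← ENNReal.ofReal_mul (by positivity)]
                congr 1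
                rw [show k + n + 1 = (k + 1) + n by ring, pow_add (1 / 4 : ℝ) (k + 1) n,
                  mul_left_comm, ← mul_pow]
                norm_num
      _ = ENNReal.ofReal ((1 / 4) ^ k / 2) := by
          rw [← ENNReal.ofReal_tsum_of_nonneg (fun n => by positivity)
            ((summable_geometric_of_lt_one (by norm_num) (by norm_num)).mul_left _),
            tsum_mul_left, tsum_geometric_of_lt_one (by norm_num) (by norm_num)]
          congr 1
          ring
  have hsub : Bᶜ ⊆ {ξ | ∃ N : ℕ, ∀ n, N ≤ n → ∀ y ∈ A, population ξ (some (i, k)) n y = 0} := by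
    intro ξ hξ
    have hξ' : ∀ n j, j < 2 ^ n → ξ (n, some (i, k + n), j) =
        Finsupp.single (some (i, k + n + 1)) 2 := by
      intro n j hj
      by_contra hne
      apply hξ
      rw [hB]
      simp only [Set.mem_iUnion, mem_range, Set.mem_ofPred_eq]
      exact ⟨n, j, hj, hne⟩
    have hpop : ∀ n, population ξ (some (i, k)) n = Finsupp.single (some (i, k + n)) (2 ^ n) := by
      intro n
      induction n with
      | zero => simp [population]
      | succ n ih =>
        simp only [population]
        rw [ih, Finsupp.sum_single_index (by simp),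
          Finset.sum_congr rfl (fun j hj => hξ' n j (mem_range.mp hj)), sum_const, card_range,
          Finsupp.smul_single, show k + n + 1 = k + (n + 1) by ring]
        congr 1
    refine ⟨0, fun n _ y hy => ?_⟩
    rw [hpop n, Finsupp.single_apply, if_neg]
    rintro rfl
    exact hA (k + n) (by omega) hy
  unfold extProb
  have h1 : (offspringLaw mu).real Bᶜ = 1 - (offspringLaw mu).real B := probReal_compl_eq_one_sub hBm
  have h2 : (offspringLaw mu).real B ≤ (1 / 4) ^ k / 2 := by
    unfold Measure.real
    exact ENNReal.toReal_le_of_le_ofReal (by positivity) hBle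
  have h3 := measureReal_mono (μ := offspringLaw mu) hsub
  linarith

end extinction

/-- The fixed points `zfam s t` with `t > 0` are not extinction probability vectors. -/
lemma zfam_not_ext {s t : ℝ} (ht : 0 < t) (hs1 : s ≤ 1) : zfam s t ∉ extVectors mu := by
  rintro ⟨A, hA⟩
  by_cases hinf : ∀ N, ∃ n, N ≤ n ∧ some (0, n) ∈ A
  · have h1 := extProb_eq_zero A 0 0 hinf
    rw [← hA] at h1
    exact (Real.exp_pos _).ne' h1
  · push Not at hinf
    obtain ⟨N, hN⟩ := hinf
    -- choose a high level
    obtain ⟨m, hm⟩ := pow_unbounded_of_one_lt (1 / t + 1) (one_lt_two)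
    set k := max N m with hk
    have h1 := le_extProb A 0 k (fun n hn => hN n ((le_max_left _ _).trans hn))
    rw [← hA] at h1
    have h2 : zfam s t (some (0, k)) ≤ Real.exp (-(t * (1 / 2) ^ k)) := by
      simp only [zfam, if_true]
      apply Real.exp_le_exp.mpr
      have : 0 ≤ (1 - s) * (1 / 4) ^ k / 2 := by
        have : 0 ≤ 1 - s := by linarith
        positivity
      linarith
    have hk2 : 1 / t + 1 < 2 ^ k :=
      hm.trans_le (pow_le_pow_right₀ one_le_two (le_max_right _ _))
    set a : ℝ := (1 / 2) ^ k with ha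
    have ha0 : 0 < a := by positivity
    have ha2 : a * 2 ^ k = 1 := by rw [ha, ← mul_pow]; norm_num
    have ha3 : (1 / 4 : ℝ) ^ k = a ^ 2 := by
      rw [ha, ← pow_mul, mul_comm k 2, pow_mul]; norm_num
    rw [ha3] at h1
    have h3 : 1 - a ^ 2 / 2 ≤ Real.exp (-(t * a)) := h1.trans h2
    -- e^{-x} (1 + x) ≤ 1
    have h4 : Real.exp (-(t * a)) * (1 + t * a) ≤ 1 := by
      have h5 := Real.add_one_le_exp (t * a)
      have h6 := Real.exp_pos (-(t * a))
      calc Real.exp (-(t * a)) * (1 + t * a) ≤ Real.exp (-(t * a)) * Real.exp (t * a) := by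
            apply mul_le_mul_of_nonneg_left _ h6.le
            linarith
        _ = 1 := by rw [← Real.exp_add]; simp
    have hta : 0 < t * a := by positivity
    have h7 : (1 - a ^ 2 / 2) * (1 + t * a) ≤ 1 := by
      refine le_trans ?_ h4
      apply mul_le_mul_of_nonneg_right h3 (by linarith)
    -- expand
    have h8 : t * a ≤ a ^ 2 / 2 * (1 + t * a) := by nlinarith
    have h9 : t ≤ a / 2 * (1 + t * a) := by
      have : a * t ≤ a * (a / 2 * (1 + t * a)) := by nlinarith
      exact le_of_mul_le_mul_left this ha0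
    have h10 : (1 + t) * a < t := by
      have h11 : (1 / t + 1) * a < 1 := by
        calc (1 / t + 1) * a < 2 ^ k * a := mul_lt_mul_of_pos_right hk2 ha0
          _ = 1 := by rw [mul_comm]; exact ha2
      have h12 : (1 / t + 1) * a * t < 1 * t := mul_lt_mul_of_pos_right h11 ht
      have h13 : (1 / t + 1) * a * t = (1 + t) * a := by field_simp
      rw [h13, one_mul] at h12
      exact h12
    have ha1 : a < 1 := by
      have h14 : 0 < 1 / t := by positivity
      have : a * 1 < a * 2 ^ k := mul_lt_mul_of_pos_left (by linarith) ha0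
      linarith
    nlinarith [mul_pos hta ha0, mul_pos ha0 ha0]

/-- **Main result.**  There is an irreducible branching random walk on a countable set for which
the set `E_G` of extinction probability vectors and the set `F_G ∖ E_G` of the other fixed points
are both uncountable (in particular infinite). -/
theorem result : ∃ (X : Type) (_ : Countable X) (_ : Nonempty X) (μ : X → PMF (X →₀ ℕ)),
    IrreducibleBRW μ ∧ ¬ (extVectors μ).Countable ∧
      ¬ (fixedPoints μ \ extVectors μ).Countable := by
  refine ⟨Vx, inferInstance, inferInstance, mu, irreducible, ?_, ?_⟩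
  · intro hc
    -- subsets of the set of rays
    have hinj : Function.Injective (fun I : Set ℕ =>
        extProb mu {x : Vx | ∃ i ∈ I, ∃ n, x = some (i, n)}) := by
      intro I J hIJ
      have key : ∀ (I : Set ℕ) (i : ℕ), i ∈ I ↔
          extProb mu {x : Vx | ∃ i ∈ I, ∃ n, x = some (i, n)} (some (i, 0)) = 0 := by
        intro I i
        constructor
        · intro hi
          exact extProb_eq_zero _ i 0 (fun N => ⟨N, le_rfl, i, hi, N, rfl⟩)
        · intro h
          by_contra hi
          have h1 := le_extProb {x : Vx | ∃ i ∈ I, ∃ n, x = some (i, n)} i 0 (by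
            rintro n _ ⟨i', hi', n', hn'⟩
            simp only [Option.some.injEq, Prod.mk.injEq] at hn'
            rw [← hn'.1] at hi'
            exact hi hi')
          rw [h] at h1
          norm_num at h1
      ext i
      rw [key I i, key J i]
      simp only at hIJ
      rw [hIJ]
    have h1 : (Set.range (fun I : Set ℕ =>
        extProb mu {x : Vx | ∃ i ∈ I, ∃ n, x = some (i, n)})).Countable :=
      hc.mono (by rintro _ ⟨I, rfl⟩; exact ⟨_, rfl⟩)
    have h2 : (Set.univ : Set (Set ℕ)).Countable :=
      Set.MapsTo.countable_of_injOn (fun I _ => Set.mem_range_self I) hinj.injOn h1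
    haveI h3 : Countable (Set ℕ) := Set.countable_univ_iff.mp h2
    obtain ⟨g, hg⟩ := exists_injective_nat (Set ℕ)
    exact Function.cantor_injective g hg
  · intro hc
    choose! s hs using exists_origin
    have hinj : Function.Injective (fun r : ℝ => zfam (s (Real.exp r)) (Real.exp r)) := by
      intro r r' h
      simp only at h
      have h1 : s (Real.exp r) = s (Real.exp r') := congrFun h none
      have h2 := congrFun h (some (0, 0))
      simp only [zfam, if_true, h1] at h2
      have h3 := Real.exp_injective h2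
      apply Real.exp_injective
      simp only [pow_zero, mul_one] at h3
      linarith
    have h1 : (Set.range (fun r : ℝ => zfam (s (Real.exp r)) (Real.exp r))).Countable := by
      apply hc.mono
      rintro _ ⟨r, rfl⟩
      obtain ⟨h1, h2, h3⟩ := hs (Real.exp r) (Real.exp_pos r)
      exact ⟨zfam_mem (Real.exp_pos r) h1 h2 h3, zfam_not_ext (Real.exp_pos r) h2⟩
    have h2 : (Set.univ : Set ℝ).Countable :=
      Set.MapsTo.countable_of_injOn (fun r _ => Set.mem_range_self r) hinj.injOn h1
    exact Cardinal.not_countable_real h2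

end Pool.Agent.Results.MP_46e535_pr.BothInfinite
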